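import Pool.Agent.W209.KT.Stm

/-! # Khintchine type: the subspace is of Khintchine type for convergence -/

set_option autoImplicit false

open Filter MeasureTheory

namespace Pool.Agent.W950.KT

open Pool.Agent.W209.KT

theorem nrm_nonneg (x : ℝ) : 0 ≤ nrm x := abs_nonneg _

theorem cnt_mono (α : Fin 2 → ℝ) (L L' : ℕ) (h : L ≤ L') (ψ : ℝ) : cnt α L ψ ≤ cnt α L' ψ := by
  unfold cnt
  apply Set.ncard_le_ncard
  · intro y hy
    exact ⟨hy.1.trans (by exact_mod_cast h), hy.2⟩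
  · apply (Set.finite_Icc (-(L' : ℤ)) (L' : ℤ)).subset
    intro y hy
    exact abs_le.mp hy.1

/-- the sets of Borel–Cantelli -/
def EE (A : Fin 2 → Fin 11 → ℝ) (ψ : ℕ → ℝ) (R i : ℕ) : Set (Fin 10 → ℝ) :=
  {x | (∀ l, |x l| ≤ R) ∧ ∃ q : ℕ, 2 ^ i ≤ q ∧ q < 2 ^ (i + 1) ∧ ∀ j, nrm (q * pt A x j) < ψ q}

theorem step (hv : S_vol) (A : Fin 2 → Fin 11 → ℝ) (hA : ∀ j l, |A j l| ≤ 1)
    (hC : CP fun j => A j 10) (ψ : ℕ → ℝ) (h0 : ∀ q, 0 ≤ ψ q) (hm : Antitone ψ)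
    (hs : Summable (fun q => ψ q ^ 12)) (R : ℕ) (hR : 1 ≤ R) :
    ∀ᵐ x : Fin 10 → ℝ, ∀ᶠ i in atTop, x ∉ EE A ψ R i := by
  have h1 : Summable (fun k : ℕ => (2 : ℝ) ^ k * (ψ (2 ^ k)) ^ 12) := by
    apply (summable_condensed_iff_of_nonneg (f := fun q => ψ q ^ 12) ?_ ?_).mpr hs
    · intro n; exact pow_nonneg (h0 n) _
    · intro m n _ hmn
      exact pow_le_pow_left₀ (h0 n) (hm hmn) _
  have h2 : Summable (fun k : ℕ => (2 : ℝ) ^ k * (22 * ψ (2 ^ k)) ^ 12) := by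
    refine (h1.mul_left ((22 : ℝ) ^ 12)).congr ?_
    intro k; ring
  obtain ⟨B, hB⟩ := h2.tendsto_atTop_zero.bddAbove_range
  obtain ⟨K0, hK0⟩ := exists_nat_ge B
  obtain ⟨C, e, hCpos, he, hCe⟩ := hC (max (8 * R) K0) (by omega)
  have h3 : ∀ᶠ i in atTop, (2 : ℝ) ^ i * (22 * ψ (2 ^ i)) ^ 12 < 1 :=
    h2.tendsto_atTop_zero.eventually (gt_mem_nhds one_pos)
  obtain ⟨i0, hi0⟩ := eventually_atTop.mp h3
  set b : ℕ → ℝ := fun i => (100 * R) ^ 10 * C * ((2 : ℝ) ^ i * (22 * ψ (2 ^ i)) ^ 12 + e i) with hb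
  have hbs : Summable b := (h2.add he).mul_left _
  have hmeas : ∀ i, i0 ≤ i → volume (EE A ψ R i) ≤ ENNReal.ofReal (b i) := by
    intro i hi
    rcases (h0 (2 ^ i)).eq_or_lt with h4 | h4
    · have : EE A ψ R i = ∅ := by
        ext x
        simp only [EE, Set.mem_setOf_eq, Set.mem_empty_iff_false, iff_false]
        rintro ⟨_, q, hq1, _, hq3⟩
        have h5 := hq3 0
        have h6 := hm hq1
        have h7 := nrm_nonneg (q * pt A x 0)
        linarith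
      rw [this]; simp
    · have h5 : ψ (2 ^ i) ≤ 1 := by
        by_contra hcon
        push Not at hcon
        have h6 := hi0 i hi
        have h7 : (1 : ℝ) ≤ (2 : ℝ) ^ i := one_le_pow₀ (by norm_num)
        have h8 : (1 : ℝ) ≤ (22 * ψ (2 ^ i)) ^ 12 := one_le_pow₀ (by linarith)
        nlinarith
      have h6 : EE A ψ R i ⊆ {x : Fin 10 → ℝ | (∀ l, |x l| ≤ R) ∧ ∃ q : ℕ, 2 ^ i ≤ q ∧
          q < 2 ^ (i + 1) ∧ ∀ j, nrm (q * pt A x j) < ψ (2 ^ i)} := by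
        rintro x ⟨hx, q, hq1, hq2, hq3⟩
        exact ⟨hx, q, hq1, hq2, fun j => (hq3 j).trans_le (hm hq1)⟩
      refine (measure_mono h6).trans ((hv A hA R i (ψ (2 ^ i)) hR h4 h5).trans ?_)
      apply ENNReal.ofReal_le_ofReal
      have h7 : (2 : ℝ) ^ i * (22 * ψ (2 ^ i)) ^ 12 ≤ (max (8 * R) K0 : ℕ) := by
        refine (hB ⟨i, rfl⟩).trans (hK0.trans ?_)
        exact_mod_cast le_max_right _ _
      have h8 := hCe i (22 * ψ (2 ^ i)) (by positivity) h7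
      have h9 : (cnt (fun j => A j 10) (8 * R * 2 ^ i) (22 * ψ (2 ^ i)) : ℝ) ≤
          cnt (fun j => A j 10) (max (8 * R) K0 * 2 ^ i) (22 * ψ (2 ^ i)) := by
        exact_mod_cast cnt_mono _ _ _ (Nat.mul_le_mul_right _ (le_max_left _ _)) _
      have h10 : ψ (2 ^ i) ^ 10 ≤ (22 * ψ (2 ^ i)) ^ 10 :=
        pow_le_pow_left₀ h4.le (by linarith) _
      have h11 : (0 : ℝ) ≤ (100 * R : ℝ) ^ 10 := by positivity
      have h12 : ψ (2 ^ i) ^ 10 * (cnt (fun j => A j 10) (8 * R * 2 ^ i) (22 * ψ (2 ^ i)) : ℝ) ≤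
          (22 * ψ (2 ^ i)) ^ 10 *
            (cnt (fun j => A j 10) (max (8 * R) K0 * 2 ^ i) (22 * ψ (2 ^ i)) : ℝ) :=
        mul_le_mul h10 h9 (Nat.cast_nonneg _) (by positivity)
      calc (100 * R : ℝ) ^ 10 * ψ (2 ^ i) ^ 10 *
            (cnt (fun j => A j 10) (8 * R * 2 ^ i) (22 * ψ (2 ^ i)) : ℝ)
          = (100 * R : ℝ) ^ 10 * (ψ (2 ^ i) ^ 10 *
            (cnt (fun j => A j 10) (8 * R * 2 ^ i) (22 * ψ (2 ^ i)) : ℝ)) := by ring
        _ ≤ (100 * R : ℝ) ^ 10 * (C * (2 ^ i * (22 * ψ (2 ^ i)) ^ 12 + e i)) :=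
            mul_le_mul_of_nonneg_left (h12.trans h8) h11
        _ = b i := by simp only [hb]; ring
  have hsum : ∑' i, volume (EE A ψ R (i + i0)) ≠ ⊤ := by
    have hb2 : Summable (fun i => b (i + i0)) := (summable_nat_add_iff i0).mpr hbs
    refine ne_top_of_le_ne_top hb2.tsum_ofReal_ne_top ?_
    exact ENNReal.tsum_le_tsum (fun i => hmeas (i + i0) (by omega))
  have hae := ae_eventually_notMem hsum
  filter_upwards [hae] with x hx
  obtain ⟨N, hN⟩ := eventually_atTop.mp hx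
  refine eventually_atTop.mpr ⟨N + i0, fun i hi => ?_⟩
  have := hN (i - i0) (by omega)
  rwa [Nat.sub_add_cancel (by omega)] at this

theorem L : S_L := by
  intro hv A hA hC ψ h0 hm hs
  have h := ae_all_iff.mpr (fun R : ℕ => step hv A hA hC ψ h0 hm hs (R + 1) (by omega))
  filter_upwards [h] with x hx happ
  obtain ⟨R, hR⟩ := exists_nat_ge (∑ l, |x l|)
  obtain ⟨N, hN⟩ := eventually_atTop.mp (hx R)
  obtain ⟨q, hq, hq2⟩ := (frequently_atTop.mp happ) (2 ^ N)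
  have hq0 : q ≠ 0 := by
    have : 0 < 2 ^ N := by positivity
    omega
  have hlog : N ≤ Nat.log 2 q := by
    exact Nat.le_log_of_pow_le (by norm_num) hq
  refine hN (Nat.log 2 q) hlog ⟨fun l => ?_, q, Nat.pow_log_le_self 2 hq0,
    Nat.lt_pow_succ_log_self (by norm_num) q, ?_⟩
  · have := Finset.single_le_sum (f := fun l => |x l|) (fun i _ => abs_nonneg _)
      (Finset.mem_univ l)
    push_cast
    linarith
  · intro j
    exact hq2 j

end Pool.Agent.W950.KT
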